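import Pool.Agent.Helper98.ZA.Stmts

/-!
Row ZPH of the sheet ZA (MP_7a8f48_an): functions which are almost periodic with the period `m`.
-/

open MeasureTheory Filter Topology Finset
open scoped ComplexConjugate

namespace Pool.Agent.Helper72.ZA

open Pool.Agent.Helper98.ZA
open Pool.Agent.Helper16.MD (MS)

/-- shifted sums -/
theorem shift (b : ℕ → ℂ) (hb0 : b 0 = 0) (hb : ∀ n, ‖b n‖ ≤ 1) (h N : ℕ) :
    ‖∑ n ∈ Icc 1 N, b n - ∑ x ∈ range N, b (x + h)‖ ≤ 2 * h + 1 := by
  have h1 : ∑ n ∈ Icc 1 N, b n = ∑ n ∈ range (N + 1), b n := by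
    induction N with
    | zero => simp [hb0]
    | succ N ih => rw [Finset.sum_Icc_succ_top (by omega), ih, ← Finset.sum_range_succ]
  have h2 : ∑ n ∈ range N, b n + ∑ x ∈ range h, b (N + x) =
      ∑ x ∈ range h, b x + ∑ x ∈ range N, b (h + x) := by
    rw [← Finset.sum_range_add, ← Finset.sum_range_add, add_comm N h]
  have h3 : ∑ x ∈ range N, b (x + h) = ∑ x ∈ range N, b (h + x) :=
    Finset.sum_congr rfl fun x _ => by rw [add_comm]
  have h4 : ∑ n ∈ Icc 1 N, b n - ∑ x ∈ range N, b (x + h) =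
      ∑ x ∈ range h, b x - ∑ x ∈ range h, b (N + x) + b N := by
    rw [h1, h3, Finset.sum_range_succ]
    linear_combination h2
  have h5 : ∀ f : ℕ → ℂ, (∀ n, ‖f n‖ ≤ 1) → ‖∑ x ∈ range h, f x‖ ≤ h := fun f hf =>
    (norm_sum_le _ _).trans ((Finset.sum_le_sum fun x _ => hf x).trans (by simp))
  rw [h4]
  refine (norm_add_le _ _).trans ?_
  have h6 := norm_sub_le (∑ x ∈ range h, b x) (∑ x ∈ range h, b (N + x))
  have h7 := h5 b hb
  have h8 := h5 (fun x => b (N + x)) fun n => hb _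
  have h9 := hb N
  linarith

theorem mu_le (n : ℕ) : ‖((ArithmeticFunction.moebius n : ℤ) : ℂ)‖ ≤ 1 := by
  rw [Complex.norm_intCast]
  exact_mod_cast ArithmeticFunction.abs_moebius_le_one

/-- the sum over progressions -/
theorem core (a : ℕ → ℂ) (ha : ∀ n, ‖a n‖ ≤ 1) (m J N : ℕ) :
    (m * J : ℝ) * ‖MS a N‖ ≤
      ∑ x ∈ range N, ∑ r ∈ range m,
        ‖∑ j ∈ range J, ((ArithmeticFunction.moebius (x + r + m * j) : ℤ) : ℂ)‖ +
      ∑ r ∈ range m, ∑ j ∈ range J, ∑ x ∈ range N, ‖a (x + r + m * j) - a (x + r)‖ +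
      (m * J : ℝ) * (2 * (m * J) + 1) := by
  obtain ⟨b, hb⟩ : ∃ b : ℕ → ℂ, b = fun n => ((ArithmeticFunction.moebius n : ℤ) : ℂ) * a n :=
    ⟨_, rfl⟩
  have hb0 : b 0 = 0 := by simp [hb]
  have hb1 : ∀ n, ‖b n‖ ≤ 1 := fun n => by
    rw [hb]
    simp only
    rw [norm_mul]
    nlinarith [mu_le n, ha n, norm_nonneg (a n)]
  have hM : MS a N = ∑ n ∈ Icc 1 N, b n := by rw [hb]; rfl
  have h1 : ((m * J : ℝ) : ℂ) * MS a N = ∑ r ∈ range m, ∑ j ∈ range J,
      ∑ x ∈ range N, b (x + (r + m * j)) + ∑ r ∈ range m, ∑ j ∈ range J,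
      (∑ n ∈ Icc 1 N, b n - ∑ x ∈ range N, b (x + (r + m * j))) := by
    rw [← Finset.sum_add_distrib]
    have : ∀ r, (∑ j ∈ range J, ∑ x ∈ range N, b (x + (r + m * j)) + ∑ j ∈ range J,
        (∑ n ∈ Icc 1 N, b n - ∑ x ∈ range N, b (x + (r + m * j)))) = J * MS a N := by
      intro r
      rw [← Finset.sum_add_distrib, hM]
      simp
    rw [Finset.sum_congr rfl fun r _ => this r]
    simp only [Finset.sum_const, Finset.card_range, nsmul_eq_mul]
    push_cast
    ring
  have h2 : ‖∑ r ∈ range m, ∑ j ∈ range J,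
      (∑ n ∈ Icc 1 N, b n - ∑ x ∈ range N, b (x + (r + m * j)))‖ ≤
      (m * J : ℝ) * (2 * (m * J) + 1) := by
    refine (norm_sum_le _ _).trans ?_
    have h3 : ∀ r ∈ range m, ‖∑ j ∈ range J,
        (∑ n ∈ Icc 1 N, b n - ∑ x ∈ range N, b (x + (r + m * j)))‖ ≤
        J * (2 * (m * J) + 1) := by
      intro r hr
      refine (norm_sum_le _ _).trans ?_
      have h4 : ∀ j ∈ range J, ‖∑ n ∈ Icc 1 N, b n - ∑ x ∈ range N, b (x + (r + m * j))‖ ≤
          2 * (m * J) + 1 := by
        intro j hj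
        refine (shift b hb0 hb1 _ N).trans ?_
        have h5 : r + m * j ≤ m * J := by
          have h6 := Finset.mem_range.1 hr
          have h7 := Finset.mem_range.1 hj
          calc r + m * j ≤ m + m * j := by omega
            _ = m * (j + 1) := by ring
            _ ≤ m * J := Nat.mul_le_mul_left _ h7
        have h8 : ((r + m * j : ℕ) : ℝ) ≤ m * J := by exact_mod_cast h5
        linarith
      refine (Finset.sum_le_sum h4).trans (le_of_eq ?_)
      rw [Finset.sum_const, Finset.card_range, nsmul_eq_mul]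
    refine (Finset.sum_le_sum h3).trans (le_of_eq ?_)
    rw [Finset.sum_const, Finset.card_range, nsmul_eq_mul]
    ring
  have h3 : ∑ r ∈ range m, ∑ j ∈ range J, ∑ x ∈ range N, b (x + (r + m * j)) =
      ∑ x ∈ range N, ∑ r ∈ range m, a (x + r) *
        ∑ j ∈ range J, ((ArithmeticFunction.moebius (x + r + m * j) : ℤ) : ℂ) +
      ∑ r ∈ range m, ∑ j ∈ range J, ∑ x ∈ range N,
        ((ArithmeticFunction.moebius (x + r + m * j) : ℤ) : ℂ) *
          (a (x + r + m * j) - a (x + r)) := by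
    have e1 : ∑ x ∈ range N, ∑ r ∈ range m, a (x + r) *
        ∑ j ∈ range J, ((ArithmeticFunction.moebius (x + r + m * j) : ℤ) : ℂ) =
        ∑ r ∈ range m, ∑ j ∈ range J, ∑ x ∈ range N, a (x + r) *
          ((ArithmeticFunction.moebius (x + r + m * j) : ℤ) : ℂ) := by
      rw [Finset.sum_comm]
      refine Finset.sum_congr rfl fun r _ => ?_
      rw [Finset.sum_comm]
      refine Finset.sum_congr rfl fun x _ => ?_
      rw [Finset.mul_sum]
    rw [e1, ← Finset.sum_add_distrib]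
    refine Finset.sum_congr rfl fun r _ => ?_
    rw [← Finset.sum_add_distrib]
    refine Finset.sum_congr rfl fun j _ => ?_
    rw [← Finset.sum_add_distrib]
    refine Finset.sum_congr rfl fun x _ => ?_
    rw [hb, ← add_assoc]
    simp only
    ring
  have h4 : ‖∑ x ∈ range N, ∑ r ∈ range m, a (x + r) *
        ∑ j ∈ range J, ((ArithmeticFunction.moebius (x + r + m * j) : ℤ) : ℂ)‖ ≤
      ∑ x ∈ range N, ∑ r ∈ range m,
        ‖∑ j ∈ range J, ((ArithmeticFunction.moebius (x + r + m * j) : ℤ) : ℂ)‖ := by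
    refine (norm_sum_le _ _).trans (Finset.sum_le_sum fun x _ => ?_)
    refine (norm_sum_le _ _).trans (Finset.sum_le_sum fun r _ => ?_)
    rw [norm_mul]
    exact mul_le_of_le_one_left (norm_nonneg _) (ha _)
  have h5 : ‖∑ r ∈ range m, ∑ j ∈ range J, ∑ x ∈ range N,
        ((ArithmeticFunction.moebius (x + r + m * j) : ℤ) : ℂ) *
          (a (x + r + m * j) - a (x + r))‖ ≤
      ∑ r ∈ range m, ∑ j ∈ range J, ∑ x ∈ range N, ‖a (x + r + m * j) - a (x + r)‖ := by
    refine (norm_sum_le _ _).trans (Finset.sum_le_sum fun r _ => ?_)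
    refine (norm_sum_le _ _).trans (Finset.sum_le_sum fun j _ => ?_)
    refine (norm_sum_le _ _).trans (Finset.sum_le_sum fun x _ => ?_)
    rw [norm_mul]
    exact mul_le_of_le_one_left (norm_nonneg _) (mu_le _)
  have h6 : (m * J : ℝ) * ‖MS a N‖ = ‖((m * J : ℝ) : ℂ) * MS a N‖ := by
    rw [norm_mul, Complex.norm_real, Real.norm_eq_abs, abs_of_nonneg (by positivity)]
  rw [h6, h1]
  refine (norm_add_le _ _).trans ?_
  have h7 : ‖∑ r ∈ range m, ∑ j ∈ range J, ∑ x ∈ range N, b (x + (r + m * j))‖ ≤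
      ∑ x ∈ range N, ∑ r ∈ range m,
        ‖∑ j ∈ range J, ((ArithmeticFunction.moebius (x + r + m * j) : ℤ) : ℂ)‖ +
      ∑ r ∈ range m, ∑ j ∈ range J, ∑ x ∈ range N, ‖a (x + r + m * j) - a (x + r)‖ := by
    rw [h3]
    exact (norm_add_le _ _).trans (add_le_add h4 h5)
  linarith

/-- **ZPH** -/
theorem st_ZPH (zmr : ST_ZMR) (zue : ST_ZUE) : ST_ZPH := by
  intro Y _ _ _ _ ν _ S hS hU m H P δ hm hδ hH hP hP2 hinv hd y
  obtain ⟨J, hJ, hJN⟩ := zmr m (δ / 2) hm (by positivity)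
  have hHm : Measurable (H : Y → ℂ) := H.continuous.measurable
  have hH2 : MemLp (H : Y → ℂ) 2 ν :=
    MemLp.of_bound hHm.aestronglyMeasurable 1 (Eventually.of_forall hH)
  have hSi : ∀ i : ℕ, MeasurePreserving S^[i] ν ν := fun i => hU.1.iterate i
  -- the distance in the mean
  have hHP : MemLp (fun y => H y - P y) 2 ν := hH2.sub hP2
  have hHPi : Integrable (fun y => H y - P y) ν := hHP.integrable (by norm_num)
  have hmean : ∫ y, ‖H y - P y‖ ∂ν ≤ δ := by
    have i1 : Integrable (fun y => ‖H y - P y‖ ^ 2) ν := hHP.integrable_norm_pow (by norm_num)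
    have i2 : Integrable (fun y => ‖H y - P y‖) ν := hHPi.norm
    set c := ∫ y, ‖H y - P y‖ ∂ν with hc
    have hc0 : 0 ≤ c := integral_nonneg fun x => norm_nonneg _
    have h3 : 0 ≤ ∫ x, (‖H x - P x‖ - c) ^ 2 ∂ν := integral_nonneg fun x => sq_nonneg _
    have h4 : ∫ x, (‖H x - P x‖ - c) ^ 2 ∂ν = ∫ x, ‖H x - P x‖ ^ 2 ∂ν - c ^ 2 := by
      have h5 : ∀ x, (‖H x - P x‖ - c) ^ 2 =
          ‖H x - P x‖ ^ 2 - (2 * c * ‖H x - P x‖ - c ^ 2) := fun x => by ring
      have i3 : Integrable (fun x => 2 * c * ‖H x - P x‖) ν := i2.const_mul (2 * c)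
      have i4 : Integrable (fun x => 2 * c * ‖H x - P x‖ - c ^ 2) ν :=
        i3.sub (integrable_const _)
      simp only [h5]
      rw [integral_sub i1 i4, integral_sub i3 (integrable_const _), integral_const_mul, ← hc]
      simp
      ring
    rw [h4] at h3
    have h5 : c ^ 2 ≤ δ ^ 2 := by linarith
    exact (pow_le_pow_iff_left₀ hc0 hδ.le (by norm_num)).1 h5
  have hinvj : ∀ j : ℕ, ∀ᵐ y ∂ν, P (S^[m * j] y) = P y := by
    intro j
    induction j with
    | zero => simp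
    | succ j ih =>
      filter_upwards [ih, (hSi (m * j)).quasiMeasurePreserving.ae hinv] with y h1 h2
      rw [Nat.mul_succ, add_comm, Function.iterate_add_apply, h2, h1]
  obtain ⟨V, hV⟩ : ∃ V : ℕ → C(Y, ℝ), ∀ j y, V j y = ‖H (S^[m * j] y) - H y‖ :=
    ⟨fun j => ⟨fun y => ‖H (S^[m * j] y) - H y‖,
      ((H.continuous.comp (hS.iterate _)).sub H.continuous).norm⟩, fun _ _ => rfl⟩
  have hVm : ∀ j, ∫ y, V j y ∂ν ≤ 2 * δ := by
    intro j
    have i1 : Integrable (fun y => ‖H (S^[m * j] y) - P (S^[m * j] y)‖) ν :=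
      (hSi (m * j)).integrable_comp_of_integrable hHPi.norm
    have i2 : Integrable (fun y => ‖H y - P y‖) ν := hHPi.norm
    have e1 : ∫ y, ‖H (S^[m * j] y) - P (S^[m * j] y)‖ ∂ν = ∫ y, ‖H y - P y‖ ∂ν := by
      have hmm : AEStronglyMeasurable (fun y => ‖H y - P y‖) (ν.map S^[m * j]) := by
        rw [(hSi (m * j)).map_eq]
        exact i2.aestronglyMeasurable
      have := integral_map (hSi (m * j)).measurable.aemeasurable hmm
      rw [(hSi (m * j)).map_eq] at this
      exact this.symm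
    have i0 : Integrable (fun y => V j y) ν :=
      Integrable.of_bound (V j).continuous.measurable.aestronglyMeasurable 2
        (Eventually.of_forall fun y => by
          rw [hV, norm_norm]
          exact (norm_sub_le _ _).trans (by linarith [hH (S^[m * j] y), hH y]))
    calc ∫ y, V j y ∂ν ≤ ∫ y, (‖H (S^[m * j] y) - P (S^[m * j] y)‖ + ‖H y - P y‖) ∂ν := by
          refine integral_mono_ae i0 (i1.add i2) ?_
          filter_upwards [hinvj j] with y hy
          rw [hV, hy]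
          have : H (S^[m * j] y) - H y = (H (S^[m * j] y) - P y) - (H y - P y) := by ring
          rw [this]
          exact norm_sub_le _ _
      _ ≤ 2 * δ := by
          rw [integral_add i1 i2, e1]
          linarith
  have hV2 : ∀ r j : ℕ, ∀ᶠ N : ℕ in atTop,
      ∑ n ∈ range N, V j (S^[n] (S^[r] y)) ≤ (2 * δ + δ / 4) * N := by
    intro r j
    have h1 := (zue Y ν S hS hU (V j) (S^[r] y)).1
    have h2 := h1.eventually_lt_const (lt_of_le_of_lt (hVm j) (by linarith : 2 * δ < 2 * δ + δ / 4))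
    filter_upwards [h2, eventually_ge_atTop 1] with N hN hN1
    have hN0 : (0 : ℝ) < N := by exact_mod_cast hN1
    rw [div_lt_iff₀ hN0] at hN
    exact hN.le
  have hV3 : ∀ᶠ N : ℕ in atTop, ∀ r ∈ range m, ∀ j ∈ range J,
      ∑ n ∈ range N, V j (S^[n] (S^[r] y)) ≤ (2 * δ + δ / 4) * N := by
    rw [Finset.eventually_all]
    intro r _
    rw [Finset.eventually_all]
    intro j _
    exact hV2 r j
  have hmJ : (0 : ℝ) < m * J := by
    have h1 : (0 : ℝ) < m := by exact_mod_cast hm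
    have h2 : (0 : ℝ) < J := by exact_mod_cast hJ
    positivity
  have hlarge : ∀ᶠ N : ℕ in atTop, (2 * (m * J) + 1 : ℝ) ≤ δ / 4 * N := by
    obtain ⟨N₀, hN₀⟩ := exists_nat_ge ((2 * (m * J) + 1 : ℝ) / (δ / 4))
    filter_upwards [eventually_ge_atTop N₀] with N hN
    have h1 : ((2 * (m * J) + 1 : ℝ) / (δ / 4)) ≤ N := hN₀.trans (by exact_mod_cast hN)
    rw [div_le_iff₀ (by positivity)] at h1
    linarith
  filter_upwards [hJN, hV3, hlarge] with N h1 h2 h3
  have h4 := core (fun n => H (S^[n] y)) (fun n => hH _) m J N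
  have h5 : ∑ r ∈ range m, ∑ j ∈ range J, ∑ x ∈ range N,
      ‖H (S^[x + r + m * j] y) - H (S^[x + r] y)‖ ≤ m * J * ((2 * δ + δ / 4) * N) := by
    have h6 : ∀ r ∈ range m, ∑ j ∈ range J, ∑ x ∈ range N,
        ‖H (S^[x + r + m * j] y) - H (S^[x + r] y)‖ ≤ J * ((2 * δ + δ / 4) * N) := by
      intro r hr
      have h7 : ∀ j ∈ range J, ∑ x ∈ range N,
          ‖H (S^[x + r + m * j] y) - H (S^[x + r] y)‖ ≤ (2 * δ + δ / 4) * N := by
        intro j hj
        refine le_trans (le_of_eq ?_) (h2 r hr j hj)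
        refine Finset.sum_congr rfl fun x _ => ?_
        have e1 : S^[x] (S^[r] y) = S^[x + r] y := (Function.iterate_add_apply S x r y).symm
        have e2 : S^[m * j] (S^[x + r] y) = S^[x + r + m * j] y := by
          rw [← Function.iterate_add_apply, add_comm]
        rw [hV, e1, e2]
      refine (Finset.sum_le_sum h7).trans (le_of_eq ?_)
      simp
    refine (Finset.sum_le_sum h6).trans (le_of_eq ?_)
    simp
    ring
  have h6 : (m * J : ℝ) * ‖MS (fun n => H (S^[n] y)) N‖ ≤ (m * J : ℝ) * (3 * δ * N) := by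
    have h7 := mul_le_mul_of_nonneg_left h3 hmJ.le
    have h8 : (m * J : ℝ) * (3 * δ * N) = δ / 2 * (m * J * N) + m * J * ((2 * δ + δ / 4) * N) +
        m * J * (δ / 4 * N) := by ring
    rw [h8]
    linarith
  exact le_of_mul_le_mul_left h6 hmJ

end Pool.Agent.Helper72.ZA
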